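import Pool.Agent.H24.RD.Targets

/-!
# Module BAS of the board rem_modules: independent systems in finitely generated groups
-/

set_option autoImplicit false

namespace Pool.Agent.H85.RD

open Pool.Agent.H24.RD

theorem bas_gen {U : Type} [CommGroup U] (Γ : Subgroup U) (hΓ : Γ.FG) :
    ∃ (r : ℕ) (g : Fin r → U), (∀ i, g i ∈ Γ) ∧
      (∀ x : Fin r → ℤ, ∏ i, g i ^ x i = 1 → x = 0) ∧
      ∀ a ∈ Γ, ∃ (x : Fin r → ℤ) (ξ : U) (j : ℕ), 0 < j ∧ ξ ^ j = 1 ∧
        a = ξ * ∏ i, g i ^ x i := by
  have h1 : Group.FG Γ := (Group.fg_iff_subgroup_fg Γ).2 hΓ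
  have h2 : AddGroup.FG (Additive Γ) := GroupFG.iff_add_fg.1 h1
  have h3 : Module.Finite ℤ (Additive Γ) := Module.Finite.iff_addGroup_fg.2 h2
  set T := Submodule.torsion ℤ (Additive Γ) with hT
  have h4 : Module.Free ℤ (Additive Γ ⧸ T) := Module.free_of_finite_type_torsion_free'
  set b := Module.finBasis ℤ (Additive Γ ⧸ T) with hb
  choose e he using fun i => Submodule.Quotient.mk_surjective T (b i)
  -- the images of products
  have hprod : ∀ x : Fin (Module.finrank ℤ (Additive Γ ⧸ T)) → ℤ,
      ((Additive.toMul (∑ i, x i • e i) : Γ) : U) = ∏ i, ((Additive.toMul (e i) : Γ) : U) ^ x i := by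
    intro x
    rw [toMul_sum, Subgroup.val_finsetProd]
    refine Finset.prod_congr rfl fun i _ => ?_
    rw [toMul_zsmul, Subgroup.coe_zpow]
  refine ⟨_, fun i => ((Additive.toMul (e i) : Γ) : U), fun i => (Additive.toMul (e i)).2,
    fun x hx => ?_, fun a ha => ?_⟩
  · rw [← hprod] at hx
    have h5 : (∑ i, x i • e i) = 0 := by
      apply Additive.toMul.injective
      exact Subtype.ext hx
    have h6 : ∑ i, x i • b i = 0 := by
      have h7 := congrArg (Submodule.Quotient.mk (p := T)) h5
      rw [← Submodule.mkQ_apply, map_sum] at h7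
      simpa [he] using h7
    funext i
    exact (Fintype.linearIndependent_iff.1 b.linearIndependent) x h6 i
  · set a' : Additive Γ := Additive.ofMul ⟨a, ha⟩ with ha'
    set x := b.repr (Submodule.Quotient.mk a') with hx
    have h5 : (Submodule.Quotient.mk a' : Additive Γ ⧸ T) =
        Submodule.Quotient.mk (∑ i, x i • e i) := by
      have h6 := b.sum_repr (Submodule.Quotient.mk a')
      rw [← h6, ← Submodule.mkQ_apply T (∑ i, x i • e i), map_sum]
      refine Finset.sum_congr rfl fun i _ => ?_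
      rw [map_smul, Submodule.mkQ_apply, he]
    obtain ⟨⟨k, hk⟩, hk2⟩ := (Submodule.mem_torsion_iff _).1 ((Submodule.Quotient.eq T).1 h5)
    have hk0 : k ≠ 0 := nonZeroDivisors.ne_zero hk
    refine ⟨x, ((Additive.toMul (a' - ∑ i, x i • e i) : Γ) : U), k.natAbs,
      Int.natAbs_pos.2 hk0, ?_, ?_⟩
    · have h6 : k • (a' - ∑ i, x i • e i) = 0 := hk2
      have h7 : k.natAbs • (a' - ∑ i, x i • e i) = 0 := by
        rcases Int.natAbs_eq k with h | h
        · rw [← natCast_zsmul, ← h]
          exact h6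
        · rw [← natCast_zsmul, show ((k.natAbs : ℕ) : ℤ) = -k by omega, neg_smul, h6, neg_zero]
      have h8 := congrArg (fun z : Additive Γ => ((Additive.toMul z : Γ) : U)) h7
      simpa using h8
    · rw [← hprod, toMul_sub, Subgroup.coe_div, div_mul_cancel]
      rfl

theorem pf_BAS : T_BAS := fun Γ hΓ => bas_gen Γ hΓ

end Pool.Agent.H85.RD
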