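import Pool.Agent.H24.RD.Targets

/-!
# Module CM of the board rem_modules: conjugation by `t` is a power on the Kummer group
-/

set_option autoImplicit false

namespace Pool.Agent.H85.RD

open Pool.Agent.H24.RD

section

variable {F M : Type} [Field F] [Field M] [Algebra F M]

lemma cm_ext {S : Set M} (hS : IntermediateField.adjoin F S = ⊤) (σ τ : M ≃ₐ[F] M)
    (h : ∀ z ∈ S, σ z = τ z) : σ = τ := by
  ext x
  have hx : x ∈ IntermediateField.adjoin F S := by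
    rw [hS]
    trivial
  induction hx using IntermediateField.adjoin_induction with
  | mem z hz => exact h z hz
  | algebraMap x => rw [AlgEquiv.commutes, AlgEquiv.commutes]
  | add x y _ _ hx hy => rw [map_add, map_add, hx, hy]
  | inv x _ hx => rw [map_inv₀, map_inv₀, hx]
  | mul x y _ _ hx hy => rw [map_mul, map_mul, hx, hy]

lemma cm_pow_fix (g : M ≃ₐ[F] M) {z : M} (h : g z = z) : ∀ k : ℕ, (g ^ k) z = z := by
  intro k
  induction k with
  | zero => rfl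
  | succ k ih => rw [pow_succ, AlgEquiv.mul_apply, h, ih]

lemma cm_pow (g : M ≃ₐ[F] M) {σ θ : M} (hσ : g σ = σ) (h : g θ = σ * θ) :
    ∀ k : ℕ, (g ^ k) θ = σ ^ k * θ := by
  intro k
  induction k with
  | zero => simp
  | succ k ih => rw [pow_succ, AlgEquiv.mul_apply, h, map_mul, cm_pow_fix g hσ, ih]; ring

end

theorem pf_CM : T_CM := by
  intro F M _ _ _ p hp r γ hγ n m n1 N' K' hmn hpN hKN htop t ht g hg u hu
  have hpK : ¬ p ∣ K' := fun h => hpN (h.trans hKN)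
  have hK : 0 < K' := Nat.pos_of_ne_zero fun h => hpK (h ▸ dvd_zero p)
  have hp0 : 0 < p := hp.pos
  -- roots of unity
  have hone : ∀ z : M, z ^ (p ^ n * N') = 1 → g z = z := fun z hz => hg z (Or.inl hz)
  -- roots of unity of order `p ^ m`
  have hpm : ∀ z : M, z ^ (p ^ m) = 1 → g z = z ∧ z ^ (p ^ n) = 1 := by
    intro z hz
    have h1 : z ^ (p ^ n) = 1 := by
      rw [show p ^ n = p ^ m * p ^ (n - m) by rw [← pow_add]; congr 1; omega, pow_mul, hz, one_pow]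
    exact ⟨hone z (by rw [pow_mul, h1, one_pow]), h1⟩
  -- the decomposition of the other generators
  have hcop : IsCoprime ((p ^ m : ℕ) : ℤ) (K' : ℤ) := by
    rw [Nat.isCoprime_iff_coprime]
    exact Nat.Coprime.pow_left m ((Nat.Prime.coprime_iff_not_dvd hp).2 hpK)
  obtain ⟨a, b, hab⟩ := hcop
  have hdec : ∀ (z : M) (i : Fin r), z ^ (p ^ m * K') = algebraMap F M (γ i) →
      z ≠ 0 ∧ z = (z ^ K') ^ b * (z ^ (p ^ m)) ^ a ∧ (z ^ (p ^ m)) ^ K' = algebraMap F M (γ i) ∧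
      (z ^ K') ^ (p ^ m) = algebraMap F M (γ i) := by
    intro z i hz
    have hz0 : z ≠ 0 := by
      rintro rfl
      rw [zero_pow (Nat.mul_ne_zero (pow_ne_zero _ hp0.ne') hK.ne')] at hz
      exact hγ i ((map_eq_zero (algebraMap F M)).1 hz.symm)
    refine ⟨hz0, ?_, by rw [← pow_mul, hz], by rw [← pow_mul, mul_comm, hz]⟩
    rw [← zpow_natCast z K', ← zpow_natCast z (p ^ m), ← zpow_mul, ← zpow_mul, ← zpow_add₀ hz0]
    have : (K' : ℤ) * b + ((p ^ m : ℕ) : ℤ) * a = 1 := by linarith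
    rw [this, zpow_one]
  -- the two factors
  have hw : ∀ (w : M) (i : Fin r), w ^ K' = algebraMap F M (γ i) → t w = w ∧ g w = w :=
    fun w i h => ⟨ht w (Or.inr (Or.inr (Or.inr ⟨i, h⟩))), hg w (Or.inr ⟨i, h⟩)⟩
  have hinv : ∀ w : M, t w = w → t⁻¹ w = w := by
    intro w h
    calc t⁻¹ w = t⁻¹ (t w) := by rw [h]
      _ = w := by
        rw [← AlgEquiv.mul_apply, inv_mul_cancel]
        rfl
  have htt : ∀ w : M, t (t⁻¹ w) = w := by
    intro w
    rw [← AlgEquiv.mul_apply, mul_inv_cancel]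
    rfl
  have hθ : ∀ (θ : M) (i : Fin r), θ ^ (p ^ m) = algebraMap F M (γ i) →
      ∃ σ : M, σ ^ (p ^ m) = 1 ∧ (∀ k : ℕ, (g ^ k) θ = σ ^ k * θ) ∧
        (t * g * t⁻¹) θ = σ ^ u * θ := by
    intro θ i hθ
    have hθ0 : θ ≠ 0 := by
      rintro rfl
      rw [zero_pow (pow_ne_zero _ hp0.ne')] at hθ
      exact hγ i ((map_eq_zero (algebraMap F M)).1 hθ.symm)
    have hr : ∀ φ : M ≃ₐ[F] M, (φ θ / θ) ^ (p ^ m) = 1 := by
      intro φ
      rw [div_pow, ← map_pow, hθ, AlgEquiv.commutes, div_self]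
      exact fun h => hγ i ((map_eq_zero (algebraMap F M)).1 h)
    have hφ : ∀ φ : M ≃ₐ[F] M, φ θ = (φ θ / θ) * θ := fun φ => (div_mul_cancel₀ _ hθ0).symm
    set σ : M := g θ / θ with hσ
    set ρ : M := t⁻¹ θ / θ with hρ
    have hgθ : g θ = σ * θ := hφ g
    have htθ : t⁻¹ θ = ρ * θ := hφ t⁻¹
    obtain ⟨hσ1, hσ2⟩ := hpm σ (hr g)
    obtain ⟨hρ1, hρ2⟩ := hpm ρ (hr t⁻¹)
    refine ⟨σ, hr g, cm_pow g hσ1 hgθ, ?_⟩
    rw [AlgEquiv.mul_apply, AlgEquiv.mul_apply, htθ, map_mul, hρ1, hgθ,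
      show ρ * (σ * θ) = σ * (ρ * θ) by ring, map_mul, ← htθ, htt, hu σ hσ2]
  constructor
  · refine cm_ext htop _ _ fun z hz => ?_
    rcases hz with hz | ⟨i, hz⟩
    · have h1 : (t⁻¹ z) ^ (p ^ n * N') = 1 := by rw [← map_pow, hz, map_one]
      rw [AlgEquiv.mul_apply, AlgEquiv.mul_apply, hone _ h1, htt, cm_pow_fix g (hone z hz)]
    · obtain ⟨hz0, hzd, hzw, hzθ⟩ := hdec z i hz
      obtain ⟨σ, -, hσg, hσt⟩ := hθ (z ^ K') i hzθ
      obtain ⟨hw1, hw2⟩ := hw (z ^ (p ^ m)) i hzw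
      have e1 : (t * g * t⁻¹) (z ^ (p ^ m)) = z ^ (p ^ m) := by
        rw [AlgEquiv.mul_apply, AlgEquiv.mul_apply, hinv _ hw1, hw2, hw1]
      have e2 : (g ^ u) (z ^ (p ^ m)) = z ^ (p ^ m) := cm_pow_fix g hw2 u
      rw [hzd, map_mul, map_mul, map_zpow₀, map_zpow₀, map_zpow₀, map_zpow₀, e1, e2, hσt, hσg]
  · refine cm_ext htop _ _ fun z hz => ?_
    rcases hz with hz | ⟨i, hz⟩
    · rw [cm_pow_fix g (hone z hz)]
      rfl
    · obtain ⟨hz0, hzd, hzw, hzθ⟩ := hdec z i hz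
      obtain ⟨σ, hσ1, hσg, -⟩ := hθ (z ^ K') i hzθ
      obtain ⟨hw1, hw2⟩ := hw (z ^ (p ^ m)) i hzw
      have e2 : (g ^ (p ^ m)) (z ^ (p ^ m)) = z ^ (p ^ m) := cm_pow_fix g hw2 _
      rw [AlgEquiv.one_apply]
      conv_lhs => rw [hzd]
      rw [map_mul, map_zpow₀, map_zpow₀, e2, hσg, hσ1, one_mul, ← hzd]

end Pool.Agent.H85.RD
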