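import Pool.Agent.H24.RD.Targets

/-!
# Module DIR of the board rem_modules: Dirichlet's theorem on simultaneous approximation
-/

set_option autoImplicit false

namespace Pool.Agent.H85.RD

open Pool.Agent.H24.RD

theorem pf_DIR : T_DIR := by
  intro r Q hQ ξ
  have hQ0 : (0 : ℝ) < Q := by exact_mod_cast hQ
  have hlt : ∀ (k : Fin (Q ^ r + 1)) (i : Fin r), ⌊(Q : ℝ) * Int.fract ((k : ℕ) * ξ i)⌋₊ < Q := by
    intro k i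
    have h0 := Int.fract_nonneg (((k : ℕ) : ℝ) * ξ i)
    have h1 := Int.fract_lt_one (((k : ℕ) : ℝ) * ξ i)
    rw [Nat.floor_lt (by positivity)]
    nlinarith
  have hcard : Fintype.card (Fin r → Fin Q) < Fintype.card (Fin (Q ^ r + 1)) := by
    simp
  obtain ⟨k₁, k₂, hne, heq⟩ := Fintype.exists_ne_map_eq_of_card_lt
    (fun (k : Fin (Q ^ r + 1)) (i : Fin r) =>
      (⟨⌊(Q : ℝ) * Int.fract ((k : ℕ) * ξ i)⌋₊, hlt k i⟩ : Fin Q)) hcard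
  -- the main estimate
  have key : ∀ k₁ k₂ : Fin (Q ^ r + 1), (∀ i : Fin r, ⌊(Q : ℝ) * Int.fract ((k₁ : ℕ) * ξ i)⌋₊ =
      ⌊(Q : ℝ) * Int.fract ((k₂ : ℕ) * ξ i)⌋₊) → (k₁ : ℕ) < k₂ →
      ∃ (k : ℕ) (a : Fin r → ℤ), 1 ≤ k ∧ k ≤ Q ^ r ∧ ∀ i, |k * ξ i - a i| ≤ 1 / (Q : ℝ) := by
    intro k₁ k₂ h hk
    refine ⟨(k₂ : ℕ) - k₁, fun i => ⌊((k₂ : ℕ) : ℝ) * ξ i⌋ - ⌊((k₁ : ℕ) : ℝ) * ξ i⌋, by omega,
      by have := k₂.2; omega, fun i => ?_⟩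
    have h1 := Int.floor_add_fract (((k₁ : ℕ) : ℝ) * ξ i)
    have h2 := Int.floor_add_fract (((k₂ : ℕ) : ℝ) * ξ i)
    have h0 := Int.fract_nonneg (((k₁ : ℕ) : ℝ) * ξ i)
    have h0' := Int.fract_nonneg (((k₂ : ℕ) : ℝ) * ξ i)
    set f₁ := Int.fract (((k₁ : ℕ) : ℝ) * ξ i) with hf₁
    set f₂ := Int.fract (((k₂ : ℕ) : ℝ) * ξ i) with hf₂
    have e1 : (((k₂ : ℕ) - k₁ : ℕ) : ℝ) * ξ i -
        ((⌊((k₂ : ℕ) : ℝ) * ξ i⌋ - ⌊((k₁ : ℕ) : ℝ) * ξ i⌋ : ℤ) : ℝ) = f₂ - f₁ := by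
      rw [Nat.cast_sub hk.le]
      push_cast
      linarith
    rw [e1]
    have h3 := Nat.floor_le (by positivity : 0 ≤ (Q : ℝ) * f₁)
    have h4 := Nat.lt_floor_add_one ((Q : ℝ) * f₁)
    have h5 := Nat.floor_le (by positivity : 0 ≤ (Q : ℝ) * f₂)
    have h6 := Nat.lt_floor_add_one ((Q : ℝ) * f₂)
    have h7 := h i
    rw [← hf₁, ← hf₂] at h7
    rw [h7] at h3 h4
    rw [abs_le, le_div_iff₀ hQ0, neg_div', div_le_iff₀ hQ0]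
    constructor <;> nlinarith
  have h : ∀ i : Fin r, ⌊(Q : ℝ) * Int.fract ((k₁ : ℕ) * ξ i)⌋₊ =
      ⌊(Q : ℝ) * Int.fract ((k₂ : ℕ) * ξ i)⌋₊ := fun i => by
    have h1 := congrFun heq i
    simpa using congrArg Fin.val h1
  rcases lt_or_gt_of_ne (fun hc => hne (Fin.ext hc) : (k₁ : ℕ) ≠ k₂) with h1 | h1
  · exact key k₁ k₂ h h1
  · exact key k₂ k₁ (fun i => (h i).symm) h1

end Pool.Agent.H85.RD
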