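import Pool.Agent.H24.RD.Targets

/-!
# Module TM of the board rem_modules: the mass of the automorphisms which move a `K'`-th root
-/

set_option autoImplicit false

namespace Pool.Agent.H85.RD

open Pool.Agent.H24.RD Finset NumberField

open Classical in
theorem pf_TM : T_VB → T_CO → T_TM := by
  intro hVB hCO F M _ _ _ _ _ _ p hp v hv x0 hx0 K' hpK y g hy hyK hvy
  obtain ⟨-, hvp, -, -, hroot, -, -⟩ := hVB M p hp v hv
  have hK : 0 < K' := Nat.pos_of_ne_zero fun h => hpK (h ▸ dvd_zero p)
  have hlp : Real.log (v.1 (p : M)) < 0 := Real.log_neg hvp hv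
  have hvy0 : 0 < v.1 y := v.1.pos hy
  have hwy : 0 ≤ wv v.1 p y := by
    unfold wv
    exact div_nonneg_of_nonpos (Real.log_nonpos hvy0.le hvy) hlp.le
  set S : Finset (M ≃ₐ[F] M) := univ.filter (fun t : M ≃ₐ[F] M => t y ≠ y) with hS
  have hpow : ∀ t : M ≃ₐ[F] M, (t y) ^ K' = y ^ K' := by
    intro t
    rw [← map_pow, hyK, AlgEquiv.commutes]
  -- one fibre
  have hfib : ∀ z ∈ S.image (fun t => t y),
      ∑ t ∈ S.filter (fun t => t y = z), wv v.1 p (t x0 - x0) ≤ wv v.1 p y := by
    intro z hz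
    obtain ⟨s, hs, rfl⟩ := mem_image.1 hz
    have hsy : s y ≠ y := (mem_filter.1 hs).2
    have e1 : S.filter (fun t => t y = s y) = univ.filter (fun t : M ≃ₐ[F] M => t y = s y) := by
      ext t
      simp only [hS, mem_filter, mem_univ, true_and]
      exact ⟨fun h => h.2, fun h => ⟨by rw [h]; exact hsy, h⟩⟩
    rw [e1]
    refine (hCO F M p hp v hv x0 hx0 K' y g hK hy hyK hvy s hsy).trans (le_of_eq ?_)
    set ρ : M := s y / y with hρ
    have hρ1 : ρ ≠ 1 := by
      intro h
      apply hsy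
      rw [hρ, div_eq_one_iff_eq hy] at h
      exact h
    have hρK : ρ ^ K' = 1 := by
      rw [hρ, div_pow, hpow, div_self (pow_ne_zero _ hy)]
    have h1 := hroot ρ K' hρ1 hpK hρK
    have h2 : s y - y = y * (ρ - 1) := by
      rw [hρ]
      field_simp
    unfold wv
    rw [h2, map_mul, h1, mul_one]
  have hmaps : ∀ t ∈ S, t y ∈ S.image (fun t => t y) := fun t ht => mem_image_of_mem _ ht
  rw [← sum_fiberwise_of_maps_to hmaps]
  have hcard : (S.image (fun t => t y)).card ≤ K' := by
    have h1 : S.image (fun t => t y) ⊆ (Polynomial.nthRoots K' (y ^ K')).toFinset := by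
      intro z hz
      obtain ⟨s, -, rfl⟩ := mem_image.1 hz
      rw [Multiset.mem_toFinset, Polynomial.mem_nthRoots hK]
      exact hpow s
    exact (card_le_card h1).trans ((Multiset.toFinset_card_le _).trans (Polynomial.card_nthRoots _ _))
  calc ∑ z ∈ S.image (fun t => t y), ∑ t ∈ S.filter (fun t => t y = z), wv v.1 p (t x0 - x0)
      ≤ ∑ _z ∈ S.image (fun t => t y), wv v.1 p y := sum_le_sum hfib
    _ = (S.image (fun t => t y)).card * wv v.1 p y := by rw [sum_const, nsmul_eq_mul]
    _ ≤ K' * wv v.1 p y := by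
        refine mul_le_mul_of_nonneg_right ?_ hwy
        exact_mod_cast hcard

end Pool.Agent.H85.RD
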